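import Pool.Agent.H815.QC.Stm

/-!
Project QC (helper815), problem MP_c91b70_al, lemma B1: centralizers of elements of full support in
irreducible graph products are cyclic, without torsion-free vertex groups.
-/

set_option autoImplicit false

namespace Pool.Agent.H105.QCB1

open Pool.Agent.Y110.FJ Pool.Agent.T2H65.GP Monoid
open Pool.Agent.R701.FreeProd

/-- cyclically reduced elements are not involutions -/
theorem sq_left {W X : Type} [Group W] [MulAction W X] {A : Type} [Group A] (p : DD W X A)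
    (hCR : CR p.right p.left) (h1 : p.left ≠ 1) : p * p ≠ 1 := by
  intro h
  have h2 : (p * p).left = 1 := by
    rw [h]
    rfl
  have h3 : p.left * cpm A p.right p.left = 1 := h2
  have hC : Compat p.left (cpm A p.right p.left) := by
    intro j hj hk
    rw [fst_cpm, Option.map_eq_some_iff] at hk
    obtain ⟨i, hi, hij⟩ := hk
    exact hCR i hi (by rw [hj, hij])
  have h4 := len_mul hC
  rw [h3, len_one, len_cpm] at h4
  exact h1 (eq_one_of_len (by omega))

variable {V : Type} [Finite V] (Λ : SimpleGraph V) (B : V → Type) [∀ v, Group (B v)]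

/-- in an irreducible graph product elements of full support are not involutions -/
theorem no_inv (hirr : Irr Λ) (v u : V) (huv : u ≠ v) {y : GrP Λ B}
    (hy : Mn Λ B (fun _ => True) y) : y * y ≠ 1 := by
  intro hyy
  have hstar : ∃ s, ¬ (s = v ∨ Λ.Adj v s) := by
    obtain ⟨t, s, ht, hs, hts⟩ := hirr (fun t => t = v) ⟨v, rfl⟩ ⟨u, huv⟩
    subst ht
    exact ⟨s, fun h => h.elim hs hts⟩
  obtain ⟨b, hb⟩ := exists_CR (len (Phi Λ B v y).left) (Phi Λ B v y) le_rfl
  rcases hb with h1 | ⟨x, c, h1, h2⟩ | ⟨h1, h2⟩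
  · exact absurd (dec1 Λ B v b y h1) (hy.2 _ (fun _ _ => trivial)
      ⟨v, trivial, fun h => h rfl⟩ _)
  · obtain ⟨s, hs⟩ := hstar
    exact absurd (dec2 Λ B v b y x c h1 h2) (hy.2 _ (fun _ _ => trivial) ⟨s, trivial, hs⟩ _)
  · refine sq_left _ ?_ h1 ?_
    · rw [right_conj]
      exact h2
    · have h3 : (SemidirectProduct.inl b : Dv Λ B v)⁻¹ * Phi Λ B v y * SemidirectProduct.inl b *
          ((SemidirectProduct.inl b : Dv Λ B v)⁻¹ * Phi Λ B v y * SemidirectProduct.inl b) =
          (SemidirectProduct.inl b : Dv Λ B v)⁻¹ * (Phi Λ B v y * Phi Λ B v y) *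
            SemidirectProduct.inl b := by group
      rw [h3, ← map_mul, hyy, map_one, mul_one, inv_mul_cancel]

/-- **centralizers in irreducible graph products** -/
theorem cent (hirr : Irr Λ) (v u : V) (huv : u ≠ v) {x : GrP Λ B}
    (hx : Mn Λ B (fun _ => True) x) :
    ∃ z, z * x = x * z ∧ ∀ y, y * x = x * y → y ∈ Subgroup.zpowers z := by
  have hstar : ∃ s, ¬ (s = v ∨ Λ.Adj v s) := by
    obtain ⟨t, s, ht, hs, hts⟩ := hirr (fun t => t = v) ⟨v, rfl⟩ ⟨u, huv⟩
    subst ht
    exact ⟨s, fun h => h.elim hs hts⟩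
  obtain ⟨b, hb⟩ := exists_CR (len (Phi Λ B v x).left) (Phi Λ B v x) le_rfl
  rcases hb with h1 | ⟨y, c, h1, h2⟩ | ⟨h1, h2⟩
  · exact absurd (dec1 Λ B v b x h1) (hx.2 _ (fun _ _ => trivial)
      ⟨v, trivial, fun h => h rfl⟩ _)
  · obtain ⟨s, hs⟩ := hstar
    exact absurd (dec2 Λ B v b x y c h1 h2) (hx.2 _ (fun _ _ => trivial) ⟨s, trivial, hs⟩ _)
  · obtain ⟨F, hF⟩ : ∃ F : GrP Λ B →* Dv Λ B v, F =
        (MulAut.conj ((SemidirectProduct.inl b : Dv Λ B v)⁻¹)).toMonoidHom.comp (Phi Λ B v) :=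
      ⟨_, rfl⟩
    have hFa : ∀ g, F g = (SemidirectProduct.inl b)⁻¹ * Phi Λ B v g * SemidirectProduct.inl b := by
      intro g
      rw [hF]
      show (SemidirectProduct.inl b)⁻¹ * Phi Λ B v g * ((SemidirectProduct.inl b)⁻¹)⁻¹ = _
      rw [inv_inv]
    have hFi : Function.Injective F := by
      rw [hF]
      exact (MulAut.conj _).injective.comp (Function.LeftInverse.injective (Psi_Phi Λ B v))
    obtain ⟨y₀, ⟨z, hz, rfl⟩, hy₀⟩ := cyc_of_axis ((Subgroup.centralizer {x}).map F) (F x)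
      ⟨x, Subgroup.mem_centralizer_singleton_iff.2 rfl, rfl⟩ (by
        rw [hFa, right_conj]
        exact h2) (by rw [hFa]; exact h1) (by
        rintro _ ⟨y, hy, rfl⟩
        have hy' : y * x = x * y := Subgroup.mem_centralizer_singleton_iff.1 hy
        rw [← map_mul, ← map_mul, hy']) (by
        rintro _ ⟨y, hy, rfl⟩ hy1
        have hy' : y * x = x * y := Subgroup.mem_centralizer_singleton_iff.1 hy
        rw [hFa] at hy1
        have h3 := dec1 Λ B v b y hy1
        by_contra hne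
        have hne' : y ≠ 1 := fun h => hne (by rw [h, map_one])
        exact (comm_Mn Λ B hirr hx hne' hy').2 _ (fun _ _ => trivial)
          ⟨v, trivial, fun h => h rfl⟩ _ h3) (by
        rintro _ ⟨y, hy, rfl⟩ hy1
        have hy' : y * x = x * y := Subgroup.mem_centralizer_singleton_iff.1 hy
        have h3 : y * y = 1 := by
          apply hFi
          rw [map_mul, hy1, map_one]
        by_contra hne
        have hne' : y ≠ 1 := fun h => hne (by rw [h, map_one])
        exact no_inv Λ B hirr v u huv (comm_Mn Λ B hirr hx hne' hy') h3)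
    refine ⟨z, Subgroup.mem_centralizer_singleton_iff.1 hz, fun y hy => ?_⟩
    obtain ⟨n, hn⟩ := hy₀ (F y) ⟨y, Subgroup.mem_centralizer_singleton_iff.2 hy, rfl⟩
    refine ⟨n, hFi ?_⟩
    rw [map_zpow]
    exact hn

end Pool.Agent.H105.QCB1

namespace Pool.Agent.H105

open Pool.Agent.T2H65.GP

theorem B1_proof : Pool.Agent.H815.QC.S_B1 := by
  intro V _ Λ B _ hirr hne x hx
  obtain ⟨v, u, huv⟩ := hne
  exact QCB1.cent Λ B hirr v u huv hx

end Pool.Agent.H105
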